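import Mathlib

/-!
Estimates for the cosine coefficients of `1 - x ^ α` and of `1 + cos (3 π x)` on `[0,1]`.
-/

open MeasureTheory Set Real

namespace Pool.Agent.Lib.MP_e4dd62_an

/-- `R α c = ∫_0^c t^(α-2) cos t dt`. -/
noncomputable def R (α c : ℝ) : ℝ := ∫ t in (0 : ℝ)..c, t ^ (α - 2) * Real.cos t

/-- `B α c = ∫_0^1 (1 - x^α) cos (c x) dx`. -/
noncomputable def B (α c : ℝ) : ℝ := ∫ x in (0 : ℝ)..1, (1 - x ^ α) * Real.cos (c * x)

/-- `V α k = ∫_{-π/2}^{π/2} (t + k π)^(α-2) cos t dt`. -/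
noncomputable def V (α : ℝ) (k : ℕ) : ℝ :=
  ∫ t in (-(π / 2))..(π / 2), (t + k * π) ^ (α - 2) * Real.cos t

lemma intInt_rpow_cos {α : ℝ} (h1 : 1 < α) (c a b : ℝ) :
    IntervalIntegrable (fun x : ℝ => x ^ (α - 2) * Real.cos (c * x)) volume a b :=
  (intervalIntegral.intervalIntegrable_rpow' (by linarith)).mul_continuousOn (by fun_prop)

lemma intInt_rpow_cos' {α : ℝ} (h1 : 1 < α) (a b : ℝ) :
    IntervalIntegrable (fun x : ℝ => x ^ (α - 2) * Real.cos x) volume a b :=
  (intervalIntegral.intervalIntegrable_rpow' (by linarith)).mul_continuousOn (by fun_prop)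

lemma cont_rpow {α : ℝ} (h : 0 < α) : Continuous fun x : ℝ => x ^ α :=
  Real.continuous_rpow_const h.le

lemma B_eq_J {α c : ℝ} (h1 : 1 < α) (hc : c ≠ 0) (hcos : Real.cos c = 0) :
    B α c = α * (α - 1) / c ^ 2 * ∫ x in (0 : ℝ)..1, x ^ (α - 2) * Real.cos (c * x) := by
  have hc1 : Continuous fun x : ℝ => x ^ α := cont_rpow (by linarith)
  have hc2 : Continuous fun x : ℝ => x ^ (α - 1) := cont_rpow (by linarith)
  have key := intervalIntegral.integral_eq_sub_of_hasDerivAt_of_le (a := (0 : ℝ)) (b := 1)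
    (f := fun x : ℝ => (1 - x ^ α) * Real.sin (c * x) / c
      - α * x ^ (α - 1) * Real.cos (c * x) / c ^ 2)
    (f' := fun x : ℝ => (1 - x ^ α) * Real.cos (c * x)
      - α * (α - 1) / c ^ 2 * (x ^ (α - 2) * Real.cos (c * x)))
    zero_le_one (by fun_prop) ?_ ?_
  · rw [intervalIntegral.integral_sub (Continuous.intervalIntegrable (by fun_prop) _ _)
      ((intInt_rpow_cos h1 c 0 1).const_mul _), intervalIntegral.integral_const_mul] at key
    have z1 : (0 : ℝ) ^ (α - 1) = 0 := Real.zero_rpow (by linarith)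
    simp only [Real.one_rpow, sub_self, zero_mul, zero_div, mul_one, hcos, mul_zero, Real.sin_zero,
      z1] at key
    unfold B
    linarith
  · intro x hx
    have hx0 : x ≠ 0 := hx.1.ne'
    have d1 : HasDerivAt (fun x : ℝ => x ^ α) (α * x ^ (α - 1)) x :=
      Real.hasDerivAt_rpow_const (Or.inl hx0)
    have d2 : HasDerivAt (fun x : ℝ => x ^ (α - 1)) ((α - 1) * x ^ (α - 1 - 1)) x :=
      Real.hasDerivAt_rpow_const (Or.inl hx0)
    have d3 : HasDerivAt (fun x : ℝ => Real.sin (c * x)) (Real.cos (c * x) * c) x := by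
      simpa using ((hasDerivAt_id x).const_mul c).sin
    have d4 : HasDerivAt (fun x : ℝ => Real.cos (c * x)) (-Real.sin (c * x) * c) x := by
      simpa using ((hasDerivAt_id x).const_mul c).cos
    have d5 := ((((d1.const_sub 1).mul d3).div_const c).sub
      (((d2.const_mul α).mul d4).div_const (c ^ 2)))
    have e : α - 1 - 1 = α - 2 := by ring
    rw [e] at d5
    refine HasDerivAt.congr_deriv d5 ?_
    field_simp
    ring
  · exact (Continuous.intervalIntegrable (by fun_prop) _ _).sub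
      ((intInt_rpow_cos h1 c 0 1).const_mul _)

lemma J_eq_R {α c : ℝ} (hc : 0 < c) :
    ∫ x in (0 : ℝ)..1, x ^ (α - 2) * Real.cos (c * x) = c ^ (1 - α) * R α c := by
  have h := intervalIntegral.mul_integral_comp_mul_left (a := (0 : ℝ)) (b := 1)
    (f := fun t : ℝ => t ^ (α - 2) * Real.cos t) (c := c)
  simp only [mul_zero, mul_one] at h
  unfold R
  rw [← h, ← mul_assoc, ← intervalIntegral.integral_const_mul]
  refine intervalIntegral.integral_congr fun x hx => ?_
  rw [uIcc_of_le zero_le_one] at hx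
  rw [Real.mul_rpow hc.le hx.1]
  have : c ^ (1 - α) * c * c ^ (α - 2) = 1 := by
    have e1 : c ^ (1 - α) * c = c ^ (1 - α + 1) := (Real.rpow_add_one hc.ne' _).symm
    rw [e1, ← Real.rpow_add hc]
    have : 1 - α + 1 + (α - 2) = 0 := by ring
    rw [this, Real.rpow_zero]
  calc x ^ (α - 2) * Real.cos (c * x)
      = (c ^ (1 - α) * c * c ^ (α - 2)) * (x ^ (α - 2) * Real.cos (c * x)) := by rw [this]; ring
    _ = _ := by ring

lemma B_eq_R {α c : ℝ} (h1 : 1 < α) (hc : 0 < c) (hcos : Real.cos c = 0) :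
    B α c = α * (α - 1) / c ^ 2 * (c ^ (1 - α) * R α c) := by
  rw [B_eq_J h1 hc.ne' hcos, J_eq_R hc]

lemma abs_B_le {α c : ℝ} (h1 : 1 < α) (hc : c ≠ 0) (hcos : Real.cos c = 0) :
    |B α c| ≤ α / c ^ 2 := by
  rw [B_eq_J h1 hc hcos, abs_mul]
  have hJ : |∫ x in (0 : ℝ)..1, x ^ (α - 2) * Real.cos (c * x)| ≤ 1 / (α - 1) := by
    have hI : ∫ x in (0 : ℝ)..1, x ^ (α - 2) = 1 / (α - 1) := by
      rw [integral_rpow (Or.inl (by linarith))]
      have z1 : (0 : ℝ) ^ (α - 2 + 1) = 0 := Real.zero_rpow (by linarith)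
      rw [z1, Real.one_rpow]
      congr 1 <;> ring
    rw [← hI]
    refine (intervalIntegral.abs_integral_le_integral_abs zero_le_one).trans ?_
    refine intervalIntegral.integral_mono_on zero_le_one (intInt_rpow_cos h1 c 0 1).abs
      (intervalIntegral.intervalIntegrable_rpow' (by linarith)) fun x hx => ?_
    rw [abs_mul, abs_of_nonneg (Real.rpow_nonneg hx.1 _)]
    exact mul_le_of_le_one_right (Real.rpow_nonneg hx.1 _) (Real.abs_cos_le_one _)
  have hpos : 0 < α * (α - 1) / c ^ 2 := by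
    have : 0 < α - 1 := by linarith
    have : 0 < α := by linarith
    positivity
  rw [abs_of_pos hpos]
  calc α * (α - 1) / c ^ 2 * |∫ x in (0 : ℝ)..1, x ^ (α - 2) * Real.cos (c * x)|
      ≤ α * (α - 1) / c ^ 2 * (1 / (α - 1)) := mul_le_mul_of_nonneg_left hJ hpos.le
    _ = α / c ^ 2 := by
      have : α - 1 ≠ 0 := by linarith
      field_simp

lemma B_lip {α₀ α : ℝ} (h0 : 0 < α₀) (h : α₀ ≤ α) (c : ℝ) : B α₀ c - (α - α₀) ≤ B α c := by
  have hc0 : Continuous fun x : ℝ => x ^ α₀ := cont_rpow h0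
  have hc1 : Continuous fun x : ℝ => x ^ α := cont_rpow (by linarith)
  have hI : ∀ a : ℝ, 0 < a → ∫ x in (0 : ℝ)..1, x ^ a = 1 / (a + 1) := by
    intro a ha
    rw [integral_rpow (Or.inl (by linarith))]
    have z1 : (0 : ℝ) ^ (a + 1) = 0 := Real.zero_rpow (by linarith)
    rw [z1, Real.one_rpow, sub_zero]
  have h2 : ∫ x in (0 : ℝ)..1, ((1 - x ^ α₀) * Real.cos (c * x) - (x ^ α₀ - x ^ α))
      ≤ ∫ x in (0 : ℝ)..1, (1 - x ^ α) * Real.cos (c * x) := by
    refine intervalIntegral.integral_mono_on zero_le_one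
      (Continuous.intervalIntegrable (by fun_prop) _ _)
      (Continuous.intervalIntegrable (by fun_prop) _ _) fun x hx => ?_
    have h3 : x ^ α ≤ x ^ α₀ := Real.rpow_le_rpow_of_exponent_ge' hx.1 hx.2 h0.le h
    have h4 := Real.neg_one_le_cos (c * x)
    nlinarith
  rw [intervalIntegral.integral_sub (Continuous.intervalIntegrable (by fun_prop) _ _)
      (Continuous.intervalIntegrable (by fun_prop) _ _),
    intervalIntegral.integral_sub (Continuous.intervalIntegrable (by fun_prop) _ _)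
      (Continuous.intervalIntegrable (by fun_prop) _ _), hI α₀ h0, hI α (by linarith)] at h2
  have h5 : 1 / (α₀ + 1) - 1 / (α + 1) ≤ α - α₀ := by
    have hα : 0 < α := by linarith
    rw [div_sub_div _ _ (by linarith) (by linarith), div_le_iff₀ (by positivity)]
    have : 0 ≤ α - α₀ := by linarith
    nlinarith [mul_pos h0 hα]
  unfold B
  linarith

lemma V_intInt (α : ℝ) {k : ℕ} (hk : 1 ≤ k) :
    ContinuousOn (fun t : ℝ => (t + k * π) ^ (α - 2) * Real.cos t) (uIcc (-(π / 2)) (π / 2)) := by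
  refine ContinuousOn.mul (ContinuousOn.rpow_const (by fun_prop) fun x hx => Or.inl ?_)
    (by fun_prop)
  rw [uIcc_of_le (by linarith [Real.pi_pos])] at hx
  have hk' : (1 : ℝ) ≤ k := by exact_mod_cast hk
  have := hx.1
  have h2 : π ≤ k * π := le_mul_of_one_le_left Real.pi_pos.le hk'
  have : 0 < x + k * π := by linarith [Real.pi_pos]
  exact this.ne'

lemma R_succ {α : ℝ} (h1 : 1 < α) (m : ℕ) :
    R α (((m + 1 : ℕ) + 1 / 2) * π) = R α ((m + 1 / 2) * π) + (-1) ^ (m + 1) * V α (m + 1) := by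
  unfold R V
  rw [← intervalIntegral.integral_add_adjacent_intervals (b := ((m : ℝ) + 1 / 2) * π)
    (intInt_rpow_cos' h1 _ _) (intInt_rpow_cos' h1 _ _)]
  congr 1
  have h := intervalIntegral.integral_comp_add_right (a := -(π / 2)) (b := π / 2)
    (fun t : ℝ => t ^ (α - 2) * Real.cos t) (((m + 1 : ℕ) : ℝ) * π)
  have e1 : -(π / 2) + ((m + 1 : ℕ) : ℝ) * π = ((m : ℝ) + 1 / 2) * π := by push_cast; ring
  have e2 : π / 2 + ((m + 1 : ℕ) : ℝ) * π = (((m + 1 : ℕ) : ℝ) + 1 / 2) * π := by ring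
  rw [e1, e2] at h
  rw [← h, ← intervalIntegral.integral_const_mul]
  congr 1
  ext t
  rw [Real.cos_add_nat_mul_pi]
  ring

lemma V_nonneg (α : ℝ) {k : ℕ} (hk : 1 ≤ k) : 0 ≤ V α k := by
  unfold V
  refine intervalIntegral.integral_nonneg (by linarith [Real.pi_pos]) fun x hx => ?_
  have hk' : (1 : ℝ) ≤ k := by exact_mod_cast hk
  have h2 : π ≤ k * π := le_mul_of_one_le_left Real.pi_pos.le hk'
  have : 0 ≤ x + k * π := by linarith [Real.pi_pos, hx.1]
  exact mul_nonneg (Real.rpow_nonneg this _) (Real.cos_nonneg_of_mem_Icc hx)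

lemma V_anti {α : ℝ} (h2 : α ≤ 2) {k : ℕ} (hk : 1 ≤ k) : V α (k + 1) ≤ V α k := by
  unfold V
  refine intervalIntegral.integral_mono_on (by linarith [Real.pi_pos])
    (V_intInt α (by omega)).intervalIntegrable (V_intInt α hk).intervalIntegrable fun x hx => ?_
  have hk' : (1 : ℝ) ≤ k := by exact_mod_cast hk
  have h3 : π ≤ k * π := le_mul_of_one_le_left Real.pi_pos.le hk'
  have h4 : 0 < x + k * π := by linarith [Real.pi_pos, hx.1]
  refine mul_le_mul_of_nonneg_right ?_ (Real.cos_nonneg_of_mem_Icc hx)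
  refine Real.rpow_le_rpow_of_nonpos h4 ?_ (by linarith)
  push_cast
  nlinarith [Real.pi_pos]

lemma V_gap {α s : ℝ} (h1 : 1 < α) (hs : 0 < s) (h2 : α ≤ 2 - s) :
    4 / (7 * π) * ((7 / 5 : ℝ) ^ s - 1) ≤ V α 2 - V α 3 := by
  unfold V
  rw [← intervalIntegral.integral_sub (V_intInt α (by norm_num)).intervalIntegrable
    (V_intInt α (by norm_num)).intervalIntegrable]
  have hI : ∫ t in (-(π / 2))..(π / 2), 2 / (7 * π) * ((7 / 5 : ℝ) ^ s - 1) * Real.cos t
      = 4 / (7 * π) * ((7 / 5 : ℝ) ^ s - 1) := by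
    rw [intervalIntegral.integral_const_mul, integral_cos]
    simp
    ring
  rw [← hI]
  refine intervalIntegral.integral_mono_on (by linarith [Real.pi_pos])
    (Continuous.intervalIntegrable (by fun_prop) _ _)
    ((V_intInt α (by norm_num)).intervalIntegrable.sub
      (V_intInt α (by norm_num)).intervalIntegrable) fun x hx => ?_
  rw [← sub_mul]
  refine mul_le_mul_of_nonneg_right ?_ (Real.cos_nonneg_of_mem_Icc hx)
  push_cast
  have hpi := Real.pi_gt_three
  have hx1 := hx.1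
  have hx2 := hx.2
  set a := x + 2 * π with ha
  set b := x + 3 * π with hb
  have ha0 : 0 < a := by linarith
  have hb0 : 0 < b := by linarith
  have hb1 : 1 ≤ b := by linarith
  have hab : a ≤ 5 / 7 * b := by linarith
  -- b ^ (α - 2) ≥ 2 / (7 π)
  have e1 : 2 / (7 * π) ≤ b ^ (α - 2) := by
    have : b ^ (-1 : ℝ) ≤ b ^ (α - 2) := Real.rpow_le_rpow_of_exponent_le hb1 (by linarith)
    rw [Real.rpow_neg_one] at this
    refine le_trans ?_ this
    rw [← one_div, div_le_div_iff₀ (by positivity) hb0]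
    linarith
  -- a ^ (α - 2) ≥ (7/5)^s b ^ (α - 2)
  have e2 : (7 / 5 : ℝ) ^ s * b ^ (α - 2) ≤ a ^ (α - 2) := by
    have t1 : (5 / 7 * b) ^ (α - 2) ≤ a ^ (α - 2) :=
      Real.rpow_le_rpow_of_nonpos ha0 hab (by linarith)
    rw [Real.mul_rpow (by norm_num) hb0.le] at t1
    refine le_trans (mul_le_mul_of_nonneg_right ?_ (Real.rpow_nonneg hb0.le _)) t1
    have t2 : (5 / 7 : ℝ) ^ (α - 2) = (7 / 5 : ℝ) ^ (2 - α) := by
      have : (5 / 7 : ℝ) = (7 / 5 : ℝ)⁻¹ := by norm_num
      rw [this, Real.inv_rpow (by norm_num), ← Real.rpow_neg (by norm_num)]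
      congr 1
      ring
    rw [t2]
    exact Real.rpow_le_rpow_of_exponent_le (by norm_num) (by linarith)
  have e3 : 1 ≤ (7 / 5 : ℝ) ^ s := Real.one_le_rpow (by norm_num) hs.le
  nlinarith

lemma R_lower {α : ℝ} (h1 : 1 < α) (h2 : α ≤ 2) (m : ℕ) (hm : m ≠ 1) :
    R α (3 * π / 2) + (V α 2 - V α 3) ≤ R α ((m + 1 / 2) * π) := by
  have e1 : 3 * π / 2 = (((1 : ℕ) : ℝ) + 1 / 2) * π := by push_cast; ring
  have r1 := R_succ h1 0
  have r2 := R_succ h1 1
  have r3 := R_succ h1 2
  have odd : ∀ k : ℕ, R α (3 * π / 2) + (V α 2 - V α 3)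
      ≤ R α ((((2 * k + 3 : ℕ) : ℝ) + 1 / 2) * π) := by
    intro k
    induction k with
    | zero =>
      rw [e1]
      norm_num at r2 r3 ⊢
      linarith
    | succ k ih =>
      have s1 := R_succ h1 (2 * k + 3)
      have s2 := R_succ h1 (2 * k + 3 + 1)
      have p1 : (-1 : ℝ) ^ (2 * k + 3 + 1) = 1 := by
        rw [show 2 * k + 3 + 1 = 2 * (k + 2) by ring, pow_mul]; norm_num
      have p2 : (-1 : ℝ) ^ (2 * k + 3 + 1 + 1) = -1 := by rw [pow_succ, p1]; norm_num
      rw [p1] at s1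
      rw [p2] at s2
      have s3 := V_anti h2 (k := 2 * k + 3 + 1) (by omega)
      have : 2 * (k + 1) + 3 = 2 * k + 3 + 1 + 1 := by ring
      rw [this]
      linarith
  rcases Nat.even_or_odd' m with ⟨k, rfl | rfl⟩
  · rcases k with _ | k
    · have v1 := V_anti h2 (k := 1) le_rfl
      have v3 := V_nonneg α (k := 3) (by norm_num)
      rw [e1]
      norm_num at r1 v1 ⊢
      linarith
    · have s1 := R_succ h1 (2 * (k + 1))
      have p2 : (-1 : ℝ) ^ (2 * (k + 1) + 1) = -1 := by rw [pow_succ, pow_mul]; norm_num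
      rw [p2] at s1
      have o := odd k
      have : 2 * k + 3 = 2 * (k + 1) + 1 := by ring
      rw [this] at o
      have v := V_nonneg α (k := 2 * (k + 1) + 1) (by omega)
      linarith
  · rcases k with _ | k
    · exact absurd rfl hm
    · have o := odd k
      have : 2 * k + 3 = 2 * (k + 1) + 1 := by ring
      rwa [this] at o

/-- `P c = ∫_0^1 (1 + cos (3 π x)) cos (c x) dx`. -/
noncomputable def P (c : ℝ) : ℝ := ∫ x in (0 : ℝ)..1, (1 + Real.cos (3 * π * x)) * Real.cos (c * x)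

lemma P_eq {c : ℝ} (hc : c ≠ 0) (h3 : 3 * π + c ≠ 0) (h3' : 3 * π - c ≠ 0) :
    P c = Real.sin c * (9 * π ^ 2 / (c * ((3 * π + c) * (3 * π - c)))) := by
  have key := intervalIntegral.integral_eq_sub_of_hasDerivAt (a := (0 : ℝ)) (b := 1)
    (f := fun x : ℝ => Real.sin (c * x) / c + Real.sin ((3 * π + c) * x) / (2 * (3 * π + c))
      + Real.sin ((3 * π - c) * x) / (2 * (3 * π - c)))
    (f' := fun x : ℝ => (1 + Real.cos (3 * π * x)) * Real.cos (c * x)) ?_
    (Continuous.intervalIntegrable (by fun_prop) _ _)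
  · unfold P
    rw [key]
    have s1 : Real.sin (3 * π + c) = -Real.sin c := by
      have : 3 * π + c = c + π + 2 * π := by ring
      rw [this, Real.sin_add_two_pi, Real.sin_add_pi]
    have s2 : Real.sin (3 * π - c) = Real.sin c := by
      have : 3 * π - c = (π - c) + 2 * π := by ring
      rw [this, Real.sin_add_two_pi, Real.sin_pi_sub]
    simp only [mul_one, mul_zero, Real.sin_zero, zero_div, add_zero, sub_zero, s1, s2]
    field_simp
    ring
  · intro x _
    have d : ∀ a : ℝ, HasDerivAt (fun x : ℝ => Real.sin (a * x)) (Real.cos (a * x) * a) x := by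
      intro a
      simpa using ((hasDerivAt_id x).const_mul a).sin
    have d5 := (((d c).div_const c).add ((d (3 * π + c)).div_const (2 * (3 * π + c)))).add
      ((d (3 * π - c)).div_const (2 * (3 * π - c)))
    refine HasDerivAt.congr_deriv d5 ?_
    rw [add_mul (3 * π), sub_mul (3 * π), Real.cos_add, Real.cos_sub]
    field_simp
    ring

lemma P_one : P (3 * π / 2) = -(8 / (9 * π)) := by
  have hpi := Real.pi_pos
  rw [P_eq (by positivity) (by positivity) (by linarith)]
  have : Real.sin (3 * π / 2) = -1 := by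
    have : 3 * π / 2 = π / 2 + π := by ring
    rw [this, Real.sin_add_pi, Real.sin_pi_div_two]
  rw [this]
  have e1 : 3 * π + 3 * π / 2 = 9 * π / 2 := by ring
  have e2 : 3 * π - 3 * π / 2 = 3 * π / 2 := by ring
  rw [e1, e2]
  field_simp
  ring

lemma abs_P_le (m : ℕ) :
    |P (((m : ℝ) + 1 / 2) * π)| ≤ 36 * π ^ 2 / (((m : ℝ) + 1 / 2) * π) ^ 3 := by
  have hpi := Real.pi_pos
  set u : ℝ := (m : ℝ) + 1 / 2 with hu
  have hu0 : 0 < u := by positivity
  have hcase : u ≤ 5 / 2 ∨ 7 / 2 ≤ u := by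
    rcases le_or_gt m 2 with h | h
    · left
      have : (m : ℝ) ≤ 2 := by exact_mod_cast h
      linarith
    · right
      have : (3 : ℝ) ≤ m := by exact_mod_cast h
      linarith
  have hne : 3 - u ≠ 0 := by
    rcases hcase with h | h
    · linarith
    · linarith
  have h3' : 3 * π - u * π ≠ 0 := by
    rw [← sub_mul]
    exact mul_ne_zero hne hpi.ne'
  rw [P_eq (by positivity) (by positivity) h3', abs_mul]
  refine (mul_le_of_le_one_left (abs_nonneg _) (Real.abs_sin_le_one _)).trans ?_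
  have e : 9 * π ^ 2 / (u * π * ((3 * π + u * π) * (3 * π - u * π)))
      = 9 / (u * π) / ((3 + u) * (3 - u)) := by
    have : 3 + u ≠ 0 := by positivity
    have e1 : 3 * π + u * π = (3 + u) * π := by ring
    have e2 : 3 * π - u * π = (3 - u) * π := by ring
    rw [e1, e2]
    field_simp
  have e' : 36 * π ^ 2 / (u * π) ^ 3 = 9 / (u * π) / (u ^ 2 / 4) := by
    field_simp
    ring
  rw [e, e', abs_div, abs_of_pos (by positivity : 0 < 9 / (u * π))]
  refine div_le_div_of_nonneg_left (by positivity) (by positivity) ?_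
  rcases hcase with h | h
  · rw [abs_of_nonneg (by nlinarith)]
    nlinarith
  · rw [abs_of_nonpos (by nlinarith)]
    nlinarith

end Pool.Agent.Lib.MP_e4dd62_an
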