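import Mathlib

/-!
Antiperiodic Fourier expansion on `[-1,1]`: an even continuous function vanishing at `1`
whose coefficients against `cos ((n + 1/2) π ξ)` are nonnegative and summable is, on `[-1,1]`,
the Fourier transform of a finite nonnegative measure.
-/

open MeasureTheory Set Real

namespace Pool.Agent.Lib.MP_e4dd62_an

/-- `f` agrees on `[-1,1]` with the Fourier transform of a finite measure. -/
def IsFT (f : ℝ → ℝ) : Prop :=
  ∃ μ : Measure ℝ, IsFiniteMeasure μ ∧
    ∀ ξ ∈ Set.Icc (-1 : ℝ) 1, ∫ x, Complex.exp (Complex.I * ξ * x) ∂μ = (f ξ : ℂ)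

lemma integrable_cexp (μ : Measure ℝ) [IsFiniteMeasure μ] (ξ : ℝ) :
    Integrable (fun x : ℝ => Complex.exp (Complex.I * ξ * x)) μ := by
  refine Integrable.of_bound (C := 1) (by fun_prop) (ae_of_all _ fun x => ?_)
  have : Complex.I * ξ * x = ((ξ * x : ℝ) : ℂ) * Complex.I := by push_cast; ring
  rw [this, Complex.norm_exp_ofReal_mul_I]

lemma IsFT.add {f g : ℝ → ℝ} (hf : IsFT f) (hg : IsFT g) : IsFT (fun x => f x + g x) := by
  obtain ⟨μ, hμ, h1⟩ := hf
  obtain ⟨ν, hν, h2⟩ := hg
  refine ⟨μ + ν, inferInstance, fun ξ hξ => ?_⟩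
  rw [integral_add_measure (integrable_cexp μ ξ) (integrable_cexp ν ξ), h1 ξ hξ, h2 ξ hξ]
  push_cast; ring

lemma IsFT.congr {f g : ℝ → ℝ} (hf : IsFT f) (h : ∀ ξ ∈ Set.Icc (-1 : ℝ) 1, f ξ = g ξ) :
    IsFT g := by
  obtain ⟨μ, hμ, h1⟩ := hf
  exact ⟨μ, hμ, fun ξ hξ => by rw [h1 ξ hξ, h ξ hξ]⟩

lemma isFT_cos (c a : ℝ) (hc : 0 ≤ c) : IsFT (fun ξ => c * Real.cos (a * ξ)) := by
  refine ⟨ENNReal.ofReal (c / 2) • Measure.dirac a + ENNReal.ofReal (c / 2) • Measure.dirac (-a),
    ?_, fun ξ _ => ?_⟩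
  · have : IsFiniteMeasure (ENNReal.ofReal (c / 2) • Measure.dirac a) :=
      Measure.smul_finite _ ENNReal.ofReal_ne_top
    have : IsFiniteMeasure (ENNReal.ofReal (c / 2) • Measure.dirac (-a)) :=
      Measure.smul_finite _ ENNReal.ofReal_ne_top
    infer_instance
  · have : IsFiniteMeasure (ENNReal.ofReal (c / 2) • Measure.dirac a) :=
      Measure.smul_finite _ ENNReal.ofReal_ne_top
    have : IsFiniteMeasure (ENNReal.ofReal (c / 2) • Measure.dirac (-a)) :=
      Measure.smul_finite _ ENNReal.ofReal_ne_top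
    rw [integral_add_measure (integrable_cexp _ ξ) (integrable_cexp _ ξ), integral_smul_measure,
      integral_smul_measure, integral_dirac, integral_dirac,
      ENNReal.toReal_ofReal (by linarith)]
    push_cast
    rw [Complex.cos]
    simp only [Complex.real_smul]
    push_cast
    have e1 : Complex.I * ξ * a = a * ξ * Complex.I := by ring
    have e2 : Complex.I * ξ * (-a) = -(a * ξ) * Complex.I := by ring
    rw [e1, e2]; ring

lemma integral_even_cexp (g : ℝ → ℝ) (hg : Continuous g) (heven : ∀ x, g (-x) = g x) (c : ℝ) :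
    ∫ x in (-1 : ℝ)..1, Complex.exp (-(c * x) * Complex.I) * (g x : ℂ)
      = ((2 * ∫ x in (0 : ℝ)..1, g x * Real.cos (c * x) : ℝ) : ℂ) := by
  have hcont : Continuous fun x : ℝ => Complex.exp (-(c * x) * Complex.I) * (g x : ℂ) := by
    fun_prop
  have h1 : ∫ x in (-1 : ℝ)..0, Complex.exp (-(c * x) * Complex.I) * (g x : ℂ)
      = ∫ x in (0 : ℝ)..1, Complex.exp ((c * x) * Complex.I) * (g x : ℂ) := by
    have := intervalIntegral.integral_comp_neg (a := (0 : ℝ)) (b := 1)
      (fun x : ℝ => Complex.exp (-(c * x) * Complex.I) * (g x : ℂ))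
    simp only [neg_zero] at this
    rw [← this]
    congr 1
    ext x
    rw [heven]
    push_cast
    congr 2
    ring
  rw [← intervalIntegral.integral_add_adjacent_intervals (b := 0)
    (hcont.intervalIntegrable _ _) (hcont.intervalIntegrable _ _), h1,
    ← intervalIntegral.integral_add (Continuous.intervalIntegrable (by fun_prop) _ _)
      (hcont.intervalIntegrable _ _), ← intervalIntegral.integral_const_mul,
    ← intervalIntegral.integral_ofReal]
  congr 1
  ext x
  push_cast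
  rw [Complex.cos]
  ring

theorem isFT_of_coeff (g : ℝ → ℝ) (hg : Continuous g) (heven : ∀ x, g (-x) = g x) (h1 : g 1 = 0)
    (hpos : ∀ n : ℤ, 0 ≤ ∫ x in (0 : ℝ)..1, g x * Real.cos (((n : ℝ) + 1 / 2) * π * x))
    (hsum : Summable fun n : ℤ => ∫ x in (0 : ℝ)..1, g x * Real.cos (((n : ℝ) + 1 / 2) * π * x)) :
    IsFT g := by
  set d : ℤ → ℝ := fun n => ∫ x in (0 : ℝ)..1, g x * Real.cos (((n : ℝ) + 1 / 2) * π * x) with hd
  have : Fact ((0 : ℝ) < 2) := ⟨by norm_num⟩
  set h : ℝ → ℂ := fun x => Complex.exp (-((π / 2 : ℝ) * x) * Complex.I) * (g x : ℂ) with hh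
  have hhc : Continuous h := by rw [hh]; fun_prop
  have hm1 : g (-1) = 0 := by rw [heven, h1]
  have hend : h (-1) = h (-1 + 2) := by
    have : (-1 : ℝ) + 2 = 1 := by norm_num
    rw [this]
    simp [hh, h1, hm1]
  let F : C(AddCircle (2 : ℝ), ℂ) :=
    ⟨AddCircle.liftIoc 2 (-1) h, AddCircle.liftIoc_continuous hend hhc.continuousOn⟩
  have hcoef : ∀ n : ℤ, fourierCoeff F n = (d n : ℂ) := by
    intro n
    have e : fourierCoeff F n = fourierCoeff (AddCircle.liftIoc 2 (-1) h) n := rfl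
    rw [e, fourierCoeff_liftIoc_eq, fourierCoeffOn_eq_integral]
    have e2 : (-1 : ℝ) + 2 = 1 := by norm_num
    have e3 : ∀ x : ℝ, (fourier (-n) (x : AddCircle ((-1 : ℝ) + 2 - -1))) • h x
        = Complex.exp (-((((n : ℝ) + 1 / 2) * π : ℝ) * x) * Complex.I) * (g x : ℂ) := by
      intro x
      rw [fourier_coe_apply, hh, smul_eq_mul, ← mul_assoc, ← Complex.exp_add]
      congr 2
      push_cast
      ring
    simp_rw [e3]
    rw [e2, integral_even_cexp g hg heven]
    simp only [hd, Complex.real_smul]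
    push_cast
    ring
  have hsumF : Summable (fourierCoeff F) := by
    have : fourierCoeff F = fun n => (d n : ℂ) := funext hcoef
    rw [this]
    exact Complex.summable_ofReal.mpr hsum
  refine ⟨Measure.sum fun n : ℤ => ENNReal.ofReal (d n) • Measure.dirac (((n : ℝ) + 1 / 2) * π),
    ?_, fun ξ hξ => ?_⟩
  · refine ⟨?_⟩
    rw [Measure.sum_apply _ MeasurableSet.univ]
    simp only [Measure.smul_apply, measure_univ, smul_eq_mul, mul_one]
    exact hsum.tsum_ofReal_lt_top
  · rw [integral_sum_dirac (fun _ => ENNReal.ofReal_ne_top)]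
    have hs := has_pointwise_sum_fourier_series_of_summable hsumF (ξ : AddCircle (2 : ℝ))
    have hF : F (ξ : AddCircle (2 : ℝ)) = h ξ := by
      change AddCircle.liftIoc 2 (-1) h (ξ : AddCircle (2 : ℝ)) = h ξ
      rcases eq_or_lt_of_le hξ.1 with hx | hx
      · rw [AddCircle.liftIoc_eq_liftIco hend, AddCircle.liftIco_coe_apply]
        rw [← hx]; constructor <;> norm_num
      · rw [AddCircle.liftIoc_coe_apply]
        exact ⟨hx, by linarith [hξ.2]⟩
    rw [hF] at hs
    have hs2 := hs.mul_left (Complex.exp (((π / 2 : ℝ) * ξ) * Complex.I))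
    have e4 : Complex.exp (((π / 2 : ℝ) * ξ) * Complex.I) * h ξ = g ξ := by
      rw [hh]
      simp only
      rw [← mul_assoc, ← Complex.exp_add]
      have : ((π / 2 : ℝ) * ξ : ℂ) * Complex.I + -((π / 2 : ℝ) * ξ) * Complex.I = 0 := by ring
      rw [this, Complex.exp_zero, one_mul]
    rw [e4] at hs2
    rw [← hs2.tsum_eq]
    congr 1
    ext n
    rw [hcoef, ENNReal.toReal_ofReal (hpos n), fourier_coe_apply, smul_eq_mul, Complex.real_smul,
      mul_left_comm, ← Complex.exp_add]
    congr 2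
    push_cast
    ring

end Pool.Agent.Lib.MP_e4dd62_an
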