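import Mathlib
import Pool.Agent.Lib.MP_e4dd62_an.Fourier
import Pool.Agent.Lib.MP_e4dd62_an.Coeff

/-!
The perturbed Romanov extension: `1 - |ξ|^α = ε (1 + cos 3πξ) + g(ξ)` with `g(±1) = 0`, and `g`
has nonnegative antiperiodic Fourier coefficients for `α` slightly larger than a root of `R · (3π/2)`.
-/

open MeasureTheory Set Real

namespace Pool.Agent.Lib.MP_e4dd62_an

lemma cos_half_odd (m : ℕ) : Real.cos (((m : ℝ) + 1 / 2) * π) = 0 := by
  have : ((m : ℝ) + 1 / 2) * π = π / 2 + m * π := by ring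
  rw [this, Real.cos_add_nat_mul_pi, Real.cos_pi_div_two, mul_zero]

theorem isFT_of_coeff_nat (g : ℝ → ℝ) (hg : Continuous g) (heven : ∀ x, g (-x) = g x)
    (h1 : g 1 = 0)
    (hpos : ∀ m : ℕ, 0 ≤ ∫ x in (0 : ℝ)..1, g x * Real.cos (((m : ℝ) + 1 / 2) * π * x))
    (hsum : Summable fun m : ℕ => ∫ x in (0 : ℝ)..1, g x * Real.cos (((m : ℝ) + 1 / 2) * π * x)) :
    IsFT g := by
  have hneg : ∀ m : ℕ, (∫ x in (0 : ℝ)..1, g x * Real.cos ((((-(m + 1) : ℤ) : ℝ) + 1 / 2) * π * x))
      = ∫ x in (0 : ℝ)..1, g x * Real.cos (((m : ℝ) + 1 / 2) * π * x) := by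
    intro m
    congr 1
    ext x
    rw [← Real.cos_neg]
    congr 2
    push_cast
    ring
  refine isFT_of_coeff g hg heven h1 (fun n => ?_) ?_
  · rcases Int.eq_nat_or_neg n with ⟨m, rfl | rfl⟩
    · simpa using hpos m
    · rcases m with _ | m
      · simpa using hpos 0
      · have := hneg m
        push_cast at this ⊢
        rw [this]
        exact hpos m
  · refine Summable.of_nat_of_neg_add_one ?_ ?_
    · simpa using hsum
    · simp_rw [hneg]
      exact hsum

lemma summable_bound (K : ℝ) : Summable fun m : ℕ => K / (((m : ℝ) + 1 / 2) * π) ^ 2 := by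
  have h0 : Summable fun m : ℕ => 1 / ((m : ℝ) + 1) ^ 2 := by
    have := (summable_nat_add_iff 1).mpr (Real.summable_one_div_nat_pow.mpr one_lt_two)
    simpa using this
  refine Summable.of_norm_bounded (h0.mul_left |K|) fun m => ?_
  have hpi := Real.pi_gt_three
  have hm : (0 : ℝ) ≤ m := Nat.cast_nonneg m
  rw [Real.norm_eq_abs, abs_div, abs_of_pos (by positivity : 0 < (((m : ℝ) + 1 / 2) * π) ^ 2),
    mul_one_div]
  refine div_le_div_of_nonneg_left (abs_nonneg _) (by positivity) ?_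
  refine pow_le_pow_left₀ (by positivity) ?_ 2
  nlinarith

theorem isFT_of_ineq {α ε : ℝ} (h1 : 1 < α) (hε : 0 ≤ ε)
    (h : ∀ m : ℕ, ε * P (((m : ℝ) + 1 / 2) * π) ≤ B α (((m : ℝ) + 1 / 2) * π)) :
    IsFT fun ξ => 1 - |ξ| ^ α := by
  have hc1 : Continuous fun x : ℝ => x ^ α := cont_rpow (by linarith)
  have hca : Continuous fun x : ℝ => |x| ^ α := hc1.comp continuous_abs
  set g : ℝ → ℝ := fun ξ => 1 - |ξ| ^ α - ε * (1 + Real.cos (3 * π * ξ)) with hg
  have hcoef : ∀ c : ℝ, ∫ x in (0 : ℝ)..1, g x * Real.cos (c * x) = B α c - ε * P c := by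
    intro c
    unfold B P
    rw [← intervalIntegral.integral_const_mul, ← intervalIntegral.integral_sub
      (Continuous.intervalIntegrable (by fun_prop) _ _)
      (Continuous.intervalIntegrable (by fun_prop) _ _)]
    refine intervalIntegral.integral_congr fun x hx => ?_
    rw [uIcc_of_le zero_le_one] at hx
    simp only [hg]
    rw [abs_of_nonneg hx.1]
    ring
  have hG : IsFT g := by
    refine isFT_of_coeff_nat g (by rw [hg]; fun_prop) (fun x => ?_) ?_ (fun m => ?_) ?_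
    · simp only [hg, abs_neg, mul_neg, Real.cos_neg]
    · have : Real.cos (3 * π) = -1 := by
        have : 3 * π = π + 2 * π := by ring
        rw [this, Real.cos_add_two_pi, Real.cos_pi]
      simp [hg, this]
    · rw [hcoef]
      linarith [h m]
    · simp_rw [hcoef]
      refine Summable.of_norm_bounded (summable_bound (α + ε * (36 * π ^ 2))) fun m => ?_
      have hpi := Real.pi_gt_three
      have hm : (0 : ℝ) ≤ m := Nat.cast_nonneg m
      set c := ((m : ℝ) + 1 / 2) * π with hc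
      have hc1 : 1 ≤ c := by nlinarith
      have hc0 : 0 < c := by linarith
      have b1 := abs_B_le h1 hc0.ne' (cos_half_odd m)
      have b2 := abs_P_le m
      rw [← hc] at b2
      have b3 : 36 * π ^ 2 / c ^ 3 ≤ 36 * π ^ 2 / c ^ 2 :=
        div_le_div_of_nonneg_left (by positivity) (by positivity)
          (pow_le_pow_right₀ hc1 (by norm_num))
      rw [Real.norm_eq_abs]
      calc |B α c - ε * P c| ≤ |B α c| + |ε * P c| := abs_sub _ _
        _ = |B α c| + ε * |P c| := by rw [abs_mul, abs_of_nonneg hε]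
        _ ≤ α / c ^ 2 + ε * (36 * π ^ 2 / c ^ 2) :=
          add_le_add b1 (mul_le_mul_of_nonneg_left (b2.trans b3) hε)
        _ = (α + ε * (36 * π ^ 2)) / c ^ 2 := by ring
  refine ((hG.add (isFT_cos ε 0 hε)).add (isFT_cos ε (3 * π) hε)).congr fun ξ _ => ?_
  simp only [hg, zero_mul, Real.cos_zero]
  ring

theorem exists_gt_isFT {α₀ : ℝ} (h1 : 1 < α₀) (h2 : α₀ < 2) (hR : R α₀ (3 * π / 2) = 0) :
    ∃ α, α₀ < α ∧ IsFT fun ξ => 1 - |ξ| ^ α := by
  have hpi := Real.pi_gt_three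
  set s : ℝ := (2 - α₀) / 2 with hs
  have hs0 : 0 < s := by linarith
  set D : ℝ := 4 / (7 * π) * ((7 / 5 : ℝ) ^ s - 1) with hD
  have hD0 : 0 < D := by
    have : 1 < (7 / 5 : ℝ) ^ s := Real.one_lt_rpow (by norm_num) hs0
    have : 0 < (7 / 5 : ℝ) ^ s - 1 := by linarith
    positivity
  set κ : ℝ := α₀ * (α₀ - 1) with hκ
  have hκ0 : 0 < κ := mul_pos (by linarith) (by linarith)
  set ε : ℝ := κ * (D / 2) / (36 * π ^ 2) with hε
  have hε0 : 0 < ε := by positivity
  set c1 : ℝ := 3 * π / 2 with hc1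
  have hc11 : 1 ≤ c1 := by linarith
  have hc10 : 0 < c1 := by linarith
  have hcos1 : Real.cos c1 = 0 := by
    have := cos_half_odd 1
    rw [← this, hc1]
    congr 1
    push_cast
    ring
  set η : ℝ := min s (min (ε * (8 / (9 * π))) (κ * (D / 2) / c1 ^ 3)) with hη
  have hη0 : 0 < η := lt_min hs0 (lt_min (by positivity) (by positivity))
  have hη1 : η ≤ s := min_le_left _ _
  have hη2 : η ≤ ε * (8 / (9 * π)) := (min_le_right _ _).trans (min_le_left _ _)
  have hη3 : η ≤ κ * (D / 2) / c1 ^ 3 := (min_le_right _ _).trans (min_le_right _ _)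
  set α := α₀ + η with hα
  have hα1 : 1 < α := by linarith
  have hα2 : α ≤ 2 - s := by linarith
  have hκα : κ ≤ α * (α - 1) := by rw [hκ]; nlinarith
  have hB0 : B α₀ c1 = 0 := by rw [B_eq_R h1 hc10 hcos1, hR]; simp
  have hB1 : -η ≤ B α c1 := by
    have := B_lip (α₀ := α₀) (α := α) (by linarith) (by linarith) c1
    linarith
  -- power bounds
  have hpow : ∀ c : ℝ, 1 ≤ c → 1 / c ≤ c ^ (1 - α) := by
    intro c hc
    have : c ^ (-1 : ℝ) ≤ c ^ (1 - α) := Real.rpow_le_rpow_of_exponent_le hc (by linarith)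
    rwa [Real.rpow_neg_one, ← one_div] at this
  have hRα : -(D / 2) ≤ R α c1 := by
    by_contra hcon
    push Not at hcon
    rw [B_eq_R hα1 hc10 hcos1] at hB1
    have p1 := hpow c1 hc11
    have q1 : c1 ^ (1 - α) * R α c1 < 1 / c1 * (-(D / 2)) := by
      have : 0 < 1 / c1 := by positivity
      nlinarith
    have q2 : 0 < κ / c1 ^ 2 := by positivity
    have q3 : κ / c1 ^ 2 ≤ α * (α - 1) / c1 ^ 2 :=
      div_le_div_of_nonneg_right hκα (by positivity)
    have q4 : 1 / c1 * (-(D / 2)) < 0 := by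
      have : 0 < 1 / c1 * (D / 2) := by positivity
      linarith
    have q5 : α * (α - 1) / c1 ^ 2 * (c1 ^ (1 - α) * R α c1)
        < κ / c1 ^ 2 * (1 / c1 * (-(D / 2))) := by nlinarith
    have q6 : κ / c1 ^ 2 * (1 / c1 * (-(D / 2))) = -(κ * (D / 2) / c1 ^ 3) := by
      field_simp
    linarith
  refine ⟨α, by linarith, isFT_of_ineq hα1 hε0.le fun m => ?_⟩
  by_cases hm : m = 1
  · subst hm
    have e1 : (((1 : ℕ) : ℝ) + 1 / 2) * π = c1 := by rw [hc1]; push_cast; ring
    rw [e1, hc1, P_one, ← hc1]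
    linarith
  · have hm0 : (0 : ℝ) ≤ m := Nat.cast_nonneg m
    have r1 := R_lower hα1 (by linarith) m hm
    have r2 := V_gap hα1 hs0 hα2
    have b2 := abs_P_le m
    have hcos := cos_half_odd m
    set c := ((m : ℝ) + 1 / 2) * π with hc
    have hc1' : 1 ≤ c := by nlinarith
    have hc0 : 0 < c := by linarith
    have r3 : D / 2 ≤ R α c := by linarith
    rw [B_eq_R hα1 hc0 hcos]
    have p1 := hpow c hc1'
    have q1 : 1 / c * (D / 2) ≤ c ^ (1 - α) * R α c :=
      mul_le_mul p1 r3 (by positivity) (Real.rpow_nonneg hc0.le _)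
    have q3 : κ / c ^ 2 ≤ α * (α - 1) / c ^ 2 := div_le_div_of_nonneg_right hκα (by positivity)
    calc ε * P c ≤ ε * (36 * π ^ 2 / c ^ 3) :=
          mul_le_mul_of_nonneg_left ((le_abs_self _).trans b2) hε0.le
      _ = κ / c ^ 2 * (1 / c * (D / 2)) := by rw [hε]; field_simp
      _ ≤ α * (α - 1) / c ^ 2 * (c ^ (1 - α) * R α c) :=
          mul_le_mul q3 q1 (by positivity) (q3.trans' (by positivity))

theorem le_two_of_isFT {α : ℝ} (hα : 0 < α) (h : IsFT fun ξ => 1 - |ξ| ^ α) : α ≤ 2 := by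
  obtain ⟨μ, hμ, h⟩ := h
  have hre : ∀ ξ ∈ Set.Icc (-1 : ℝ) 1, ∫ x, Real.cos (ξ * x) ∂μ = 1 - |ξ| ^ α := by
    intro ξ hξ
    have := congrArg Complex.re (h ξ hξ)
    rw [Complex.ofReal_re] at this
    refine Eq.trans ?_ this
    have e := integral_re (𝕜 := ℂ) (integrable_cexp μ ξ)
    simp only [RCLike.re_to_complex] at e
    rw [← e]
    congr 1
    ext x
    have : Complex.I * ξ * x = ((ξ * x : ℝ) : ℂ) * Complex.I := by push_cast; ring
    rw [this, Complex.exp_ofReal_mul_I_re]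
  have hint : ∀ ξ : ℝ, Integrable (fun x : ℝ => Real.cos (ξ * x)) μ := fun ξ =>
    Integrable.of_bound (C := 1) (by fun_prop) (ae_of_all _ fun x => Real.abs_cos_le_one _)
  have h0 := hre 0 ⟨by norm_num, by norm_num⟩
  have hh := hre (1 / 2) ⟨by norm_num, by norm_num⟩
  have h1 := hre 1 ⟨by norm_num, by norm_num⟩
  have hmono : ∫ x, (4 * Real.cos (1 / 2 * x) - Real.cos (1 * x)) ∂μ
      ≤ ∫ x, 3 * Real.cos (0 * x) ∂μ := by
    refine integral_mono (((hint _).const_mul 4).sub (hint _)) ((hint _).const_mul 3) fun x => ?_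
    have e : Real.cos (1 * x) = 2 * Real.cos (1 / 2 * x) ^ 2 - 1 := by
      rw [← Real.cos_two_mul]
      congr 1
      ring
    simp only [zero_mul, Real.cos_zero, e]
    nlinarith [sq_nonneg (Real.cos (1 / 2 * x) - 1)]
  rw [integral_sub ((hint _).const_mul 4) (hint _), integral_const_mul, integral_const_mul,
    h0, hh, h1, abs_zero, Real.zero_rpow hα.ne', abs_one, Real.one_rpow,
    abs_of_pos (by norm_num : (0 : ℝ) < 1 / 2)] at hmono
  by_contra hcon
  push Not at hcon
  have : (1 / 2 : ℝ) ^ α < (1 / 2 : ℝ) ^ (2 : ℝ) :=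
    Real.rpow_lt_rpow_of_exponent_gt (by norm_num) (by norm_num) hcon
  rw [Real.rpow_two] at this
  linarith

end Pool.Agent.Lib.MP_e4dd62_an
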